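import Pool.Agent.H16.CX.Targets2

/-!
# TBD: orbits which are not totally bounded give perfectly many orbits
-/

set_option autoImplicit false

open Set Topology Filter MeasureTheory

namespace Pool.Agent.H67.CX

open Pool.Agent.H16.CX

section
variable {X : Type} [MetricSpace X]

/-- the value of a finite part of an injection -/
noncomputable def FF (R : RS X) (x : X) (m : ℕ) (c : Fin m → ℕ) : X :=
  open Classical in if h : ∃ b : ℕ ↪ ℕ, ∀ j : Fin m, b j = c j then R.res h.choose x else x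

theorem FF_spec (R : RS X) (x : X) {m n : ℕ} {ε : ℝ} (hmn : n ≤ m)
    (hn : ∀ b c : ℕ ↪ ℕ, (∀ i < n, b i = c i) → ∀ x, dist (R.res b x) (R.res c x) ≤ ε)
    (b : ℕ ↪ ℕ) (c : Fin m → ℕ) (hc : ∀ j : Fin m, b j = c j) :
    dist (R.res b x) (FF R x m c) ≤ ε := by
  have h : ∃ b : ℕ ↪ ℕ, ∀ j : Fin m, b j = c j := ⟨b, hc⟩
  unfold FF
  rw [dif_pos h]
  refine hn _ _ (fun i hi => ?_) x
  have h1 := h.choose_spec ⟨i, hi.trans_le hmn⟩
  have h2 := hc ⟨i, hi.trans_le hmn⟩
  exact h2.trans h1.symm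

/-- separated orbit points -/
theorem exists_sep {O : Set X} (h : ¬ TotallyBounded O) : ∃ δ : ℝ, 0 < δ ∧ ∃ y : ℕ → X,
    (∀ n, y n ∈ O) ∧ ∀ i j, i ≠ j → 2 * δ ≤ dist (y i) (y j) := by
  rw [Metric.totallyBounded_iff] at h
  push Not at h
  obtain ⟨ε, hε, h⟩ := h
  refine ⟨ε / 2, by positivity, ?_⟩
  obtain ⟨y, hy, hy2⟩ := exists_seq_of_forall_finset_exists (fun y => y ∈ O)
    (fun a b => ε ≤ dist a b) (fun s _ => by
      by_contra hcon
      push Not at hcon
      refine h s s.finite_toSet fun z hz => ?_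
      obtain ⟨w, hw, hw2⟩ := hcon z hz
      simp only [mem_iUnion]
      refine ⟨w, hw, ?_⟩
      rw [Metric.mem_ball, dist_comm]
      exact hw2)
  refine ⟨y, hy, fun i j hij => ?_⟩
  have h2 : 2 * (ε / 2) = ε := by ring
  rw [h2]
  rcases lt_or_gt_of_ne hij with h1 | h1
  · exact hy2 i j h1
  · rw [dist_comm]
    exact hy2 j i h1

/-- extension of an injective finite sequence -/
theorem exists_ext (n : ℕ) (k : ℕ → ℕ) (hk : ∀ i < n, ∀ j < n, k i = k j → i = j) :
    ∃ b : ℕ ↪ ℕ, ∀ j < n, b j = k j := by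
  classical
  have hle : ∀ i < n, k i ≤ (Finset.range n).sup k := fun i hi =>
    Finset.le_sup (f := k) (Finset.mem_range.2 hi)
  refine ⟨⟨fun j => if j < n then k j else (Finset.range n).sup k + 1 + j, ?_⟩, fun j hj => ?_⟩
  · intro i j hij
    simp only at hij
    by_cases hi : i < n <;> by_cases hj : j < n
    · rw [if_pos hi, if_pos hj] at hij
      exact hk i hi j hj hij
    · rw [if_pos hi, if_neg hj] at hij
      have := hle i hi
      omega
    · rw [if_neg hi, if_pos hj] at hij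
      have := hle j hj
      omega
    · rw [if_neg hi, if_neg hj] at hij
      omega
  · show (if j < n then k j else _) = k j
    rw [if_pos hj]

/-- the index of `m` for `S` -/
def ix (S : ℕ → Bool) (m : ℕ) : ℕ := 2 * m + (if S m then 1 else 0)

/-- the set of the entries -/
def Es {n : ℕ} (a : ℕ → Fin n → ℕ) (S : ℕ → Bool) : Set ℕ :=
  {y | ∃ m : ℕ, ∃ k : Fin n, y = a (ix S m) k}

theorem ix_inj (S : ℕ → Bool) : Function.Injective (ix S) := by
  intro m m' h
  unfold ix at h
  split_ifs at h <;> omega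

theorem ix_ne {S T : ℕ → Bool} {m : ℕ} (h : S m ≠ T m) (m' : ℕ) : ix T m' ≠ ix S m := by
  intro h1
  unfold ix at h1
  have h2 : m' = m := by split_ifs at h1 <;> omega
  subst h2
  apply h
  cases hS : S m' <;> cases hT : T m' <;> simp_all

theorem Es_infinite {n : ℕ} {a : ℕ → Fin n → ℕ} (ha : Function.Injective a) (S : ℕ → Bool) :
    (Es a S).Infinite := by
  intro hfin
  have h1 : (Set.pi Set.univ fun _ : Fin n => Es a S).Finite := Set.Finite.pi fun _ => hfin
  have h2 : Function.Injective fun m => a (ix S m) := ha.comp (ix_inj S)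
  refine Set.infinite_range_of_injective h2 (h1.subset ?_)
  rintro _ ⟨m, rfl⟩ k _
  exact ⟨m, k, rfl⟩

theorem meas_Es {n : ℕ} (a : ℕ → Fin n → ℕ) (y : ℕ) :
    MeasurableSet {S : ℕ → Bool | y ∈ Es a S} := by
  have h1 : {S : ℕ → Bool | y ∈ Es a S} = ⋃ m : ℕ, ⋃ k : Fin n, {S | y = a (ix S m) k} := by
    ext S
    simp only [Es, mem_ofPred_eq, mem_iUnion]
  rw [h1]
  refine MeasurableSet.iUnion fun m => MeasurableSet.iUnion fun k => ?_
  have h2 : {S : ℕ → Bool | y = a (ix S m) k} =
      (fun S : ℕ → Bool => S m) ⁻¹' {t | y = a (2 * m + (if t then 1 else 0)) k} := rfl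
  rw [h2]
  exact (measurable_pi_apply m) (MeasurableSet.of_discrete)

open Classical in
theorem meas_count {n : ℕ} (a : ℕ → Fin n → ℕ) (y : ℕ) :
    Measurable fun S : ℕ → Bool => Nat.count (fun z => z ∈ Es a S) y := by
  induction y with
  | zero =>
    simp only [Nat.count_zero]
    exact measurable_const
  | succ y ih =>
    simp only [Nat.count_succ]
    exact ih.add (Measurable.ite (meas_Es a y) measurable_const measurable_const)

theorem meas_nth {n : ℕ} {a : ℕ → Fin n → ℕ} (ha : Function.Injective a) (j : ℕ) :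
    Measurable fun S : ℕ → Bool => Nat.nth (fun z => z ∈ Es a S) j := by
  classical
  refine measurable_to_countable' fun y => ?_
  have h1 : (fun S : ℕ → Bool => Nat.nth (fun z => z ∈ Es a S) j) ⁻¹' {y} =
      {S | y ∈ Es a S} ∩ (fun S : ℕ → Bool => Nat.count (fun z => z ∈ Es a S) y) ⁻¹' {j} := by
    ext S
    have hinf : (Set.ofPred fun z => z ∈ Es a S).Infinite := Es_infinite ha S
    constructor
    · intro h
      have h2 : Nat.nth (fun z => z ∈ Es a S) j = y := h
      refine ⟨?_, ?_⟩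
      · have h3 := Nat.nth_mem_of_infinite hinf j
        rw [h2] at h3
        exact h3
      · have h3 := Nat.count_nth_of_infinite hinf j
        rw [h2] at h3
        exact h3
    · rintro ⟨h2, h3⟩
      have h3' : Nat.count (fun z => z ∈ Es a S) y = j := h3
      have h4 := Nat.nth_count (p := fun z => z ∈ Es a S) h2
      rw [h3'] at h4
      exact h4
  rw [h1]
  exact (meas_Es a y).inter (meas_count a y (measurableSet_singleton j))

/-- the enumeration of the set of the entries -/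
noncomputable def bS {n : ℕ} {a : ℕ → Fin n → ℕ} (ha : Function.Injective a) (S : ℕ → Bool) :
    ℕ ↪ ℕ := ⟨Nat.nth fun z => z ∈ Es a S, Nat.nth_injective (Es_infinite ha S)⟩

theorem bS_mem {n : ℕ} {a : ℕ → Fin n → ℕ} (ha : Function.Injective a) (S : ℕ → Bool) (j : ℕ) :
    bS ha S j ∈ Es a S := Nat.nth_mem_of_infinite (p := fun z => z ∈ Es a S) (Es_infinite ha S) j

theorem bS_surj {n : ℕ} {a : ℕ → Fin n → ℕ} (ha : Function.Injective a) (S : ℕ → Bool) {y : ℕ}
    (hy : y ∈ Es a S) : ∃ j, bS ha S j = y := by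
  have h1 := Nat.range_nth_of_infinite (p := fun z => z ∈ Es a S) (Es_infinite ha S)
  have h2 : y ∈ Set.range (Nat.nth fun z => z ∈ Es a S) := by
    rw [h1]
    exact hy
  exact h2

end

theorem pf_tbd : T_SEP → T_TBD := by
  intro hSEP X _ _ _ _ R x hx
  obtain ⟨δ, hδ, y, hy, hyd⟩ := exists_sep hx
  choose g hg using hy
  obtain ⟨n, hn⟩ := R.unif (δ / 16) (by positivity)
  -- the tuples
  have hF : ∀ (b : ℕ ↪ ℕ), dist (R.res b x) (FF R x n fun j => b j) ≤ δ / 16 := fun b =>
    FF_spec R x le_rfl hn b _ fun _ => rfl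
  have hsep : ∀ i j, i ≠ j → δ ≤ dist (FF R x n fun k : Fin n => g i k)
      (FF R x n fun k : Fin n => g j k) := by
    intro i j hij
    have h1 := hyd i j hij
    rw [← hg i, ← hg j] at h1
    have h2 := hF (pe (g i))
    have h3 := hF (pe (g j))
    have h5 := dist_triangle4 (R.res (pe (g i)) x) (FF R x n fun k : Fin n => g i k)
      (FF R x n fun k : Fin n => g j k) (R.res (pe (g j)) x)
    rw [dist_comm (FF R x n fun k : Fin n => g j k) (R.res (pe (g j)) x)] at h5
    have h2' : dist (R.res (pe (g i)) x) (FF R x n fun k : Fin n => g i k) ≤ δ / 16 := h2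
    have h3' : dist (R.res (pe (g j)) x) (FF R x n fun k : Fin n => g j k) ≤ δ / 16 := h3
    linarith
  obtain ⟨φ, hφ, hS⟩ := hSEP X n (FF R x n) (fun i (k : Fin n) => g i k) δ hδ hsep
  obtain ⟨a, ha⟩ : ∃ a : ℕ → Fin n → ℕ, a = fun i (k : Fin n) => g (φ i) k := ⟨_, rfl⟩
  have hainj : Function.Injective a := by
    intro i j hij
    by_contra hne
    have h1 := hsep (φ i) (φ j) fun h => hne (hφ.injective h)
    rw [ha] at hij
    have h2 : (fun k : Fin n => g (φ i) k) = fun k : Fin n => g (φ j) k := hij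
    rw [h2, dist_self] at h1
    linarith
  have hak : ∀ i, Function.Injective (a i) := by
    intro i k k' h
    rw [ha] at h
    exact Fin.ext ((g (φ i)).injective h)
  have hS' : ∀ (s : ℕ) (c : Fin n → ℕ), (∀ j, ∃ t, t ≠ s ∧ ∃ k, c j = a t k) →
      δ / 4 ≤ dist (FF R x n c) (FF R x n (a s)) := by
    intro s c hc
    rw [ha] at hc ⊢
    exact hS s c hc
  -- the invariant
  have hQ1 : ∀ (S : ℕ → Bool) (m : ℕ), ∃ b : ℕ ↪ ℕ,
      dist (R.res b (R.res (bS hainj S) x)) (FF R x n (a (ix S m))) < δ / 8 := by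
    intro S m
    have h1 : ∀ k : Fin n, ∃ j, bS hainj S j = a (ix S m) k := fun k =>
      bS_surj hainj S ⟨m, k, rfl⟩
    choose k hk using h1
    obtain ⟨b, hb⟩ := exists_ext n (fun j => if h : j < n then k ⟨j, h⟩ else 0) (by
      intro i hi j hj hij
      simp only [dif_pos hi, dif_pos hj] at hij
      have h2 := hk ⟨i, hi⟩
      rw [hij, hk ⟨j, hj⟩] at h2
      have h3 := hak _ h2
      exact (Fin.mk.inj_iff.1 h3).symm)
    refine ⟨b, ?_⟩
    rw [← R.comp]
    refine lt_of_le_of_lt (FF_spec R x le_rfl hn _ _ fun j => ?_) (by linarith : δ / 16 < δ / 8)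
    show bS hainj S (b j) = _
    rw [hb j j.2, dif_pos j.2]
    exact hk j
  have hQ2 : ∀ (S : ℕ → Bool) (i : ℕ), (∀ m, ix S m ≠ i) → ∀ b : ℕ ↪ ℕ,
      δ / 8 ≤ dist (R.res b (R.res (bS hainj S) x)) (FF R x n (a i)) := by
    intro S i hi b
    rw [← R.comp]
    have h1 := FF_spec R x le_rfl hn (b.trans (bS hainj S)) (fun j => bS hainj S (b j))
      fun _ => rfl
    have h2 := hS' i (fun j : Fin n => bS hainj S (b j)) (by
      intro j
      obtain ⟨m, k, hmk⟩ := bS_mem hainj S (b j)
      exact ⟨ix S m, hi m, k, hmk⟩)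
    have h3 := dist_triangle_left (FF R x n fun j : Fin n => bS hainj S (b j)) (FF R x n (a i))
      (R.res (b.trans (bS hainj S)) x)
    linarith
  refine ⟨fun S => R.res (bS hainj S) x, ?_, ?_⟩
  · -- measurability
    refine measurable_of_tendsto_metrizable (f := fun m (S : ℕ → Bool) =>
      FF R x m fun j : Fin m => bS hainj S j) (fun m => ?_) ?_
    · have h1 : Measurable (FF R x m) := Measurable.of_discrete
      refine h1.comp (measurable_pi_lambda _ fun j => ?_)
      exact meas_nth hainj j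
    · rw [tendsto_pi_nhds]
      intro S
      rw [Metric.tendsto_atTop]
      intro ε hε
      obtain ⟨N, hN⟩ := R.unif (ε / 2) (by positivity)
      refine ⟨N, fun m hm => ?_⟩
      rw [dist_comm]
      exact (FF_spec R x hm hN (bS hainj S) _ fun _ => rfl).trans_lt (by linarith)
  · rintro S T hST ⟨g', hg'⟩
    obtain ⟨m, hm⟩ := Function.ne_iff.1 hST
    obtain ⟨b, hb⟩ := hQ1 S m
    have h1 := hQ2 T (ix S m) (ix_ne hm) (b.trans (pe g'⁻¹))
    have hg2 : R.res (pe g') (R.res (bS hainj S) x) = R.res (bS hainj T) x := hg'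
    rw [R.comp, ← hg2, res_inv_res] at h1
    linarith

end Pool.Agent.H67.CX
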